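import Mathlib

/-!
# KU-S1 ExtEfface: effaceability of `Ext`

`exists_epi_comp_eq_zero`: for `e ∈ Ext A B (n+1)` there is an epimorphism `π : P ⟶ A` which kills
`e`. Proof: the same statement for morphisms in the derived category is `efface` in
`Pool/Agent/H63/CMP/Efface.lean` (read the proof in its header); either import that file (if it is
proved) or do the argument here: use `HasDerivedCategory.standard C`, `Ext.homEquiv` /
`Ext.hom`, `(singleFunctor C 0).obj A ≅ Q.obj _` and
`DerivedCategory.right_fac_of_isStrictlyLE` : `e.hom = inv (Q.map s) ≫ Q.map h` with `s : X ⟶ single A` a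
quasi-isomorphism, `X` strictly `≤ 0`, `h : X ⟶ single B [n+1]`; `P := X.X 0`; `P ⟶ A` is epi since
`s` is a quasi-isomorphism, and `single P ⟶ X ⟶ (single B)[n+1]` is `0` for degree reasons.

`exists_extClass_comp`: consequence: `e = extClass.comp e'` for a short exact sequence
`0 ⟶ K ⟶ P ⟶ A ⟶ 0` and `e' ∈ Ext K B n`. Proof: take `K = kernel π` and
`Ext.contravariant_sequence_exact₃` (`Mathlib/Algebra/Homology/DerivedCategory/Ext/ExactSequences`).
-/

open CategoryTheory CategoryTheory.Limits CategoryTheory.Abelian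

namespace H24.Ku

universe w v u

variable {C : Type u} [Category.{v} C] [Abelian C]

theorem epi_of_quasiIso_aux {X : CochainComplex C ℤ} {A P : C}
    (s : X ⟶ (HomologicalComplex.single C (ComplexShape.up ℤ) 0).obj A) [QuasiIso s]
    (j : (HomologicalComplex.single C (ComplexShape.up ℤ) 0).obj P ⟶ X) [IsIso (j.f 0)]
    (π : P ⟶ A) (hπ : (HomologicalComplex.single C (ComplexShape.up ℤ) 0).map π = j ≫ s) :
    Epi π := by
  have h1 : IsIso (HomologicalComplex.homologyMap s 0) := inferInstance
  have h2 : IsIso (HomologicalComplex.cyclesMap j 0) := by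
    have a : IsIso ((HomologicalComplex.shortComplexFunctor C (ComplexShape.up ℤ) 0).map j).τ₂ := by
      change IsIso (j.f 0)
      infer_instance
    have b : Mono ((HomologicalComplex.shortComplexFunctor C (ComplexShape.up ℤ) 0).map j).τ₃ := by
      change Mono (j.f ((ComplexShape.up ℤ).next 0))
      constructor
      intro Z u v _
      apply IsZero.eq_of_tgt
      exact HomologicalComplex.isZero_single_obj_X (ComplexShape.up ℤ) 0 P _ (by simp)
    exact ShortComplex.isIso_cyclesMap_of_isIso_of_mono' _ a b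
  have h3 : Epi (HomologicalComplex.homologyMap j 0) := by
    have h := HomologicalComplex.homologyπ_naturality j 0
    have h4 : Epi (((HomologicalComplex.single C (ComplexShape.up ℤ) 0).obj P).homologyπ 0 ≫
        HomologicalComplex.homologyMap j 0) := by
      rw [h]
      infer_instance
    exact epi_of_epi (((HomologicalComplex.single C (ComplexShape.up ℤ) 0).obj P).homologyπ 0)
      (HomologicalComplex.homologyMap j 0)
  have h5 : Epi (HomologicalComplex.homologyMap
      ((HomologicalComplex.single C (ComplexShape.up ℤ) 0).map π) 0) := by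
    rw [hπ, HomologicalComplex.homologyMap_comp]
    infer_instance
  have h6 := HomologicalComplex.singleObjHomologySelfIso_hom_naturality (ComplexShape.up ℤ) 0 π
  have h7 : Epi ((HomologicalComplex.singleObjHomologySelfIso (ComplexShape.up ℤ) 0 P).hom ≫ π) := by
    rw [← h6]
    infer_instance
  exact epi_of_epi (HomologicalComplex.singleObjHomologySelfIso (ComplexShape.up ℤ) 0 P).hom π

section aux

variable [HasDerivedCategory.{w} C]

open DerivedCategory

set_option backward.isDefEq.respectTransparency false in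
theorem efface_aux {A : C} {L : CochainComplex C ℤ} (hL : IsZero (L.X 0))
    (g : (singleFunctor C 0).obj A ⟶ Q.obj L) :
    ∃ (P : C) (π : P ⟶ A), Epi π ∧ (singleFunctor C 0).map π ≫ g = 0 := by
  change Q.obj ((CochainComplex.singleFunctor C 0).obj A) ⟶ Q.obj L at g
  have hA : ((CochainComplex.singleFunctor C 0).obj A).IsStrictlyLE 0 := inferInstance
  obtain ⟨X, hX, s, hs, h, rfl⟩ := right_fac_of_isStrictlyLE g 0
  let K : CochainComplex C ℤ := (CochainComplex.singleFunctor C 0).obj A
  let K' : CochainComplex C ℤ := (HomologicalComplex.single C (ComplexShape.up ℤ) 0).obj (X.X 0)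
  let j : (HomologicalComplex.single C (ComplexShape.up ℤ) 0).obj (X.X 0) ⟶ X :=
    HomologicalComplex.mkHomFromSingle (𝟙 (X.X 0)) (fun k hk => by
      have hk' : (0 : ℤ) + 1 = k := hk
      exact (X.isZero_of_isStrictlyLE 0 k (by lia)).eq_of_tgt _ _)
  let s' : X ⟶ (HomologicalComplex.single C (ComplexShape.up ℤ) 0).obj A := s
  obtain ⟨π, hπ⟩ := (HomologicalComplex.single C (ComplexShape.up ℤ) 0).map_surjective (j ≫ s')
  refine ⟨X.X 0, π, ?_, ?_⟩
  · have hq : QuasiIso s' := by
      rw [← isIso_Q_map_iff_quasiIso]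
      exact hs
    have hj : IsIso (j.f 0) := by
      rw [HomologicalComplex.mkHomFromSingle_f]
      infer_instance
    exact epi_of_quasiIso_aux s' j π hπ
  · have hjh : j ≫ h = 0 := by
      apply HomologicalComplex.hom_ext
      intro i
      by_cases hi : i = 0
      · subst hi
        exact hL.eq_of_tgt _ _
      · exact (HomologicalComplex.isZero_single_obj_X (ComplexShape.up ℤ) 0 (X.X 0) i hi).eq_of_src _ _
    change Q.map ((HomologicalComplex.single C (ComplexShape.up ℤ) 0).map π) ≫ inv (Q.map s) ≫ Q.map h = 0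
    rw [hπ]
    change Q.map (j ≫ s) ≫ inv (Q.map s) ≫ Q.map h = 0
    rw [Q.map_comp, Category.assoc, IsIso.hom_inv_id_assoc, ← Q.map_comp, hjh, Q.map_zero]

end aux

variable [HasExt.{w} C]

theorem exists_epi_comp_eq_zero {A B : C} {n : ℕ} (e : Ext A B (n + 1)) :
    ∃ (P : C) (π : P ⟶ A), Epi π ∧ (Ext.mk₀ π).comp e (zero_add (n + 1)) = 0 := by
  let := HasDerivedCategory.standard C
  let K : CochainComplex C ℤ := (CochainComplex.singleFunctor C 0).obj B
  have hK : K.IsStrictlyLE 0 := by
    change ((CochainComplex.singleFunctor C 0).obj B).IsStrictlyLE 0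
    infer_instance
  have hK' : (K⟦((n + 1 : ℕ) : ℤ)⟧).IsStrictlyLE (-(n + 1 : ℕ)) :=
    CochainComplex.isStrictlyLE_shift K 0 _ _ (by lia)
  have hL : IsZero ((K⟦((n + 1 : ℕ) : ℤ)⟧).X 0) :=
    CochainComplex.isZero_of_isStrictlyLE _ (-(n + 1 : ℕ)) 0 (by lia)
  let c : ((DerivedCategory.singleFunctor C 0).obj B)⟦((n + 1 : ℕ) : ℤ)⟧ ≅
      DerivedCategory.Q.obj (K⟦((n + 1 : ℕ) : ℤ)⟧) :=
    (DerivedCategory.Q.commShiftIso ((n + 1 : ℕ) : ℤ)).symm.app K
  let g : (DerivedCategory.singleFunctor C 0).obj A ⟶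
      ((DerivedCategory.singleFunctor C 0).obj B)⟦((n + 1 : ℕ) : ℤ)⟧ := e.hom
  obtain ⟨P, π, hπ, h⟩ := efface_aux (A := A) hL (g ≫ c.hom)
  refine ⟨P, π, hπ, ?_⟩
  have h' : (DerivedCategory.singleFunctor C 0).map π ≫ g = 0 := by
    rw [← cancel_mono c.hom, Limits.zero_comp, Category.assoc]
    exact h
  ext
  rw [Ext.comp_hom, Ext.mk₀_hom, ShiftedHom.mk₀_comp, Ext.zero_hom]
  exact h'

theorem exists_extClass_comp {A B : C} {n : ℕ} (e : Ext A B (n + 1)) :
    ∃ (S : ShortComplex C) (hS : S.ShortExact) (i : S.X₃ ≅ A) (e' : Ext S.X₁ B n),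
      (Ext.mk₀ i.hom).comp e (zero_add (n + 1)) = hS.extClass.comp e' (add_comm 1 n) := by
  obtain ⟨P, π, hπ, h⟩ := exists_epi_comp_eq_zero e
  let S : ShortComplex C := ShortComplex.mk _ _ (kernel.condition π)
  have hS : S.ShortExact := { exact := ShortComplex.exact_kernel π }
  obtain ⟨e', he'⟩ := Ext.contravariant_sequence_exact₃ hS B e h (add_comm 1 n)
  refine ⟨S, hS, Iso.refl A, e', ?_⟩
  rw [he']
  exact Ext.mk₀_id_comp e

end H24.Ku
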