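import Pool.Agent.H24.Ku.S.ExtEfface

/-!
# KU-S2 ExtNat: naturality of `Ext.mapExactFunctor`, equivalences induce bijections on `Ext`

`mapExactFunctor_naturality`: for a natural transformation `τ : F ⟶ G` of exact functors and
`e ∈ Ext A B n`: `τ_A ∘ G(e) = F(e) ∘ τ_B`. Proof: induction on `n`. `n = 0`: `e = mk₀ f`
(`Ext.mk₀_bijective`), `Ext.mapExactFunctor_mk₀`, `Ext.mk₀_comp_mk₀`, naturality of `τ`.
`n + 1`: by `exists_extClass_comp` (after composing with the isomorphism `i`; it is enough to prove
the statement for `(mk₀ i.hom).comp e`, since `mk₀` of an isomorphism can be cancelled)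
`e = extClass.comp e'`. `F(extClass) = extClass of F(S)` (`Ext.mapExactFunctor_extClass`),
`F(a.comp b) = F(a).comp F(b)` (`Ext.mapExactFunctor_comp`) and
`ShortComplex.ShortExact.extClass_naturality` for the morphism `F(S) ⟶ G(S)` given by `τ`:
`τ_A ∘ G(δ) ∘ G(e') = F(δ) ∘ τ_K ∘ G(e') = F(δ) ∘ F(e') ∘ τ_B`.

`mapExt_bijective_of_isEquivalence`: if `F` is an equivalence then
`Ext A B n → Ext (F A) (F B) n` is bijective. Proof: induction on `n`. `n = 0`: `F` is fully faithful
(`Ext.mapExactFunctor₀`). Surjective for `n+1`: given `e ∈ Ext (F A) (F B) (n+1)` take an epi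
`π' : P' ⟶ F A` killing `e`; `P' ≅ F P` and `π'` corresponds to `F π`, `π : P ⟶ A` epi (equivalences
reflect epis); with `K = kernel π`, `S : 0 ⟶ K ⟶ P ⟶ A ⟶ 0`, `F(S)` is short exact and
`e = F(δ).comp e'` with `e' ∈ Ext (F K) (F B) n` (`Ext.contravariant_sequence_exact₃`), `e' = F(e'')` by
induction, so `e = F(δ.comp e'')`. Injective for `n+1`: if `F(e) = 0`, write `e = δ.comp e'` by
`exists_extClass_comp`; `F(δ).comp F(e') = 0` so `F(e') = (mk₀ F(f)).comp x`, `x ∈ Ext (F P) (F B) n`
(`Ext.contravariant_sequence_exact₁`), `x = F(y)`, so `F(e') = F((mk₀ f).comp y)`, `e' = (mk₀ f).comp y` by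
induction, and `δ.comp ((mk₀ f).comp y) = 0` (`extClass_comp_assoc`).
-/

open CategoryTheory CategoryTheory.Limits CategoryTheory.Abelian

namespace H24.Ku

universe w v u w' v' u'

variable {C : Type u} [Category.{v} C] [Abelian C] [HasExt.{w} C]
variable {D : Type u'} [Category.{v'} D] [Abelian D] [HasExt.{w'} D]

theorem extNat_eq_of_iso {A A' B : C} {n : ℕ} (i : A' ≅ A) (e : Ext A B n) :
    e = (Ext.mk₀ i.inv).comp ((Ext.mk₀ i.hom).comp e (zero_add n)) (zero_add n) := by
  rw [Ext.mk₀_comp_mk₀_assoc, Iso.inv_hom_id, Ext.mk₀_id_comp]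

theorem mapExactFunctor_naturality (F G : C ⥤ D) [F.Additive] [PreservesFiniteLimits F]
    [PreservesFiniteColimits F] [G.Additive] [PreservesFiniteLimits G] [PreservesFiniteColimits G]
    (τ : F ⟶ G) {A B : C} {n : ℕ} (e : Ext A B n) :
    (Ext.mk₀ (τ.app A)).comp (e.mapExactFunctor G) (zero_add n) =
      (e.mapExactFunctor F).comp (Ext.mk₀ (τ.app B)) (add_zero n) := by
  induction n generalizing A with
  | zero =>
    obtain ⟨f, rfl⟩ := (Ext.mk₀_bijective A B).2 e
    rw [Ext.mapExactFunctor_mk₀, Ext.mapExactFunctor_mk₀, Ext.mk₀_comp_mk₀, Ext.mk₀_comp_mk₀,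
      τ.naturality]
  | succ n ih =>
    obtain ⟨S, hS, i, e', he⟩ := exists_extClass_comp e
    have key : (Ext.mk₀ (τ.app S.X₃)).comp ((hS.extClass.comp e' (add_comm 1 n)).mapExactFunctor G)
        (zero_add (n + 1)) = ((hS.extClass.comp e' (add_comm 1 n)).mapExactFunctor F).comp
        (Ext.mk₀ (τ.app B)) (add_zero (n + 1)) := by
      have hnat : (Ext.mk₀ (τ.app S.X₃)).comp (hS.map_of_exact G).extClass (zero_add 1) =
          (hS.map_of_exact F).extClass.comp (Ext.mk₀ (τ.app S.X₁)) (add_zero 1) :=
        (ShortComplex.ShortExact.extClass_naturality (hS.map_of_exact F) (hS.map_of_exact G)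
          (S.mapNatTrans τ)).symm
      have ih' := ih e'
      rw [Ext.mapExactFunctor_comp, Ext.mapExactFunctor_comp, Ext.mapExactFunctor_extClass,
        Ext.mapExactFunctor_extClass]
      calc (Ext.mk₀ (τ.app S.X₃)).comp ((hS.map_of_exact G).extClass.comp (e'.mapExactFunctor G)
              (add_comm 1 n)) (zero_add (n + 1))
          = ((Ext.mk₀ (τ.app S.X₃)).comp (hS.map_of_exact G).extClass (zero_add 1)).comp
              (e'.mapExactFunctor G) (add_comm 1 n) :=
            (Ext.comp_assoc _ _ _ _ _ (by omega)).symm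
        _ = ((hS.map_of_exact F).extClass.comp (Ext.mk₀ (τ.app S.X₁)) (add_zero 1)).comp
              (e'.mapExactFunctor G) (add_comm 1 n) :=
            congrArg (fun z => z.comp (e'.mapExactFunctor G) (add_comm 1 n)) hnat
        _ = (hS.map_of_exact F).extClass.comp ((Ext.mk₀ (τ.app S.X₁)).comp
              (e'.mapExactFunctor G) (zero_add n)) (add_comm 1 n) :=
            Ext.comp_assoc _ _ _ _ _ (by omega)
        _ = (hS.map_of_exact F).extClass.comp ((e'.mapExactFunctor F).comp
              (Ext.mk₀ (τ.app B)) (add_zero n)) (add_comm 1 n) := by rw [ih']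
        _ = _ := (Ext.comp_assoc _ _ _ _ _ (by omega)).symm
    have h1 : e = (Ext.mk₀ i.inv).comp (hS.extClass.comp e' (add_comm 1 n)) (zero_add (n + 1)) := by
      rw [← he]
      exact extNat_eq_of_iso i e
    rw [h1, Ext.mapExactFunctor_comp, Ext.mapExactFunctor_comp (F := F), Ext.mapExactFunctor_mk₀,
      Ext.mapExactFunctor_mk₀, Ext.mk₀_comp_mk₀_assoc, ← τ.naturality, ← Ext.mk₀_comp_mk₀_assoc,
      key]
    exact (Ext.comp_assoc _ _ _ _ _ (by omega)).symm

theorem mapExt_bijective_of_isEquivalence (F : C ⥤ D) [F.Additive] [PreservesFiniteLimits F]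
    [PreservesFiniteColimits F] [F.IsEquivalence] (A B : C) (n : ℕ) :
    Function.Bijective (fun e : Ext A B n => e.mapExactFunctor F) := by
  induction n generalizing A with
  | zero =>
    have h := Ext.mapExactFunctor₀ F A B
    change Function.Bijective (Ext.mapExactFunctor F (X := A) (Y := B) (n := 0))
    rw [h]
    have hb : Function.Bijective (F.map : (A ⟶ B) → (F.obj A ⟶ F.obj B)) :=
      ⟨F.map_injective, F.map_surjective⟩
    exact Ext.homEquiv₀.symm.bijective.comp (hb.comp Ext.homEquiv₀.bijective)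
  | succ n ih =>
    constructor
    · have hz : ∀ e : Ext A B (n + 1), e.mapExactFunctor F = 0 → e = 0 := by
        intro e he0
        obtain ⟨S, hS, i, e', he⟩ := exists_extClass_comp e
        have h1 : (hS.map_of_exact F).extClass.comp (e'.mapExactFunctor F) (add_comm 1 n) = 0 := by
          have h0 : (hS.extClass.comp e' (add_comm 1 n)).mapExactFunctor F = 0 := by
            rw [← he, Ext.mapExactFunctor_comp, he0, Ext.comp_zero]
          rw [Ext.mapExactFunctor_comp, Ext.mapExactFunctor_extClass] at h0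
          exact h0
        obtain ⟨x, hx⟩ := Ext.contravariant_sequence_exact₁ (hS.map_of_exact F) (F.obj B)
          (e'.mapExactFunctor F) (add_comm 1 n) h1
        obtain ⟨y, hy⟩ := (ih S.X₂).2 x
        simp only at hy
        have h2 : e' = (Ext.mk₀ S.f).comp y (zero_add n) := by
          apply (ih S.X₁).1
          simp only
          rw [Ext.mapExactFunctor_comp, Ext.mapExactFunctor_mk₀, hy, ← hx]
          rfl
        have h3 : (Ext.mk₀ i.hom).comp e (zero_add (n + 1)) = 0 := by
          rw [he, h2]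
          exact hS.extClass_comp_assoc y
        rw [extNat_eq_of_iso i e, h3, Ext.comp_zero]
      exact (injective_iff_map_eq_zero (F.mapExtAddHom A B (n + 1))).2 hz
    · intro x
      obtain ⟨P', π', hπ', hx⟩ := exists_epi_comp_eq_zero x
      set P : C := F.objPreimage P'
      set φ : F.obj P ≅ P' := F.objObjPreimageIso P'
      set π : P ⟶ A := F.preimage (φ.hom ≫ π') with hπdef
      have hπ : F.map π = φ.hom ≫ π' := F.map_preimage _
      have : Epi (F.map π) := by rw [hπ]; infer_instance
      have hepi : Epi π := F.epi_of_epi_map this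
      set S : ShortComplex C := ShortComplex.mk (kernel.ι π) π (kernel.condition π)
      have hS : S.ShortExact := { exact := ShortComplex.exact_kernel π }
      have h1 : (Ext.mk₀ (S.map F).g).comp x (zero_add (n + 1)) = 0 := by
        change (Ext.mk₀ (F.map π)).comp x (zero_add (n + 1)) = 0
        rw [hπ, ← Ext.mk₀_comp_mk₀_assoc, hx, Ext.comp_zero]
      obtain ⟨x₁, hx₁⟩ := Ext.contravariant_sequence_exact₃ (hS.map_of_exact F) (F.obj B) x h1
        (add_comm 1 n)
      obtain ⟨e'', he''⟩ := (ih S.X₁).2 x₁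
      simp only at he''
      refine ⟨hS.extClass.comp e'' (add_comm 1 n), ?_⟩
      simp only
      rw [Ext.mapExactFunctor_comp, Ext.mapExactFunctor_extClass, he'']
      exact hx₁

end H24.Ku
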