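import Pool.Agent.H24.Ku.CohTwist

/-!
# Multiplication maps between free modules and between line bundles
-/

open CategoryTheory CategoryTheory.Limits CategoryTheory.Abelian MvPolynomial

noncomputable section

namespace H24.Ku

variable {X : ProjData}

/-- The action of `s ∈ A_{n-m}` on a graded module: `M_m → M_n`. -/
def act (M : Gr X) {m n : ℤ} (s : X.piece (n - m)) : M.obj.obj ⟨m⟩ →ₗ[ℂ] M.obj.obj ⟨n⟩ :=
  (M.obj.map (X := ⟨m⟩) (Y := ⟨n⟩) s).hom

/-- Multiplication by `s ∈ A_{e-n}`: `A(n) ⟶ A(e)`. -/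
def freeMul {n e : ℤ} (s : X.piece (e - n)) : free X n ⟶ free X e :=
  freeHom (n := n) (M := free X e) (⟨s.1, mem_piece_congr (by ring) s.2⟩ : (⟨-e⟩ : Deg X) ⟶ ⟨-n⟩)

/-- The element of `M_{-n}` seen through `s ∈ A_{e-n}`. -/
def actNeg (M : Gr X) {n e : ℤ} (s : X.piece (e - n)) :
    M.obj.obj ⟨-e⟩ →ₗ[ℂ] M.obj.obj ⟨-n⟩ :=
  (M.obj.map (X := ⟨-e⟩) (Y := ⟨-n⟩) ⟨s.1, mem_piece_congr (by ring) s.2⟩).hom

lemma freeMul_comp_freeHom {n e : ℤ} (s : X.piece (e - n)) {M : Gr X} (x : M.obj.obj ⟨-e⟩) :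
    freeMul s ≫ freeHom x = freeHom (n := n) (actNeg M s x) := by
  apply freeHom_ext
  change ((freeHom x).hom.app ⟨-n⟩).hom (((freeMul s).hom.app ⟨-n⟩).hom (freeGen X n)) = _
  rw [freeMul, freeHom_gen, freeHom_gen]
  rfl

/-- The product of homogeneous elements. -/
def pmul {n e g : ℤ} (s : X.piece (e - n)) (t : X.piece (g - e)) : X.piece (g - n) :=
  ⟨s.1 * t.1, mem_piece_congr (by ring) (ProjData.mul_mem_piece s.2 t.2)⟩

lemma freeMul_comp {n e g : ℤ} (s : X.piece (e - n)) (t : X.piece (g - e)) :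
    freeMul s ≫ freeMul t = freeMul (pmul s t) := by
  rw [freeMul, freeMul, ← freeMul, freeMul_comp_freeHom]
  congr 1
  refine Subtype.ext ?_
  change t.1 * s.1 = s.1 * t.1
  exact mul_comm _ _

lemma freeMul_one {n : ℤ} (h : (1 : X.A) ∈ X.piece (n - n)) :
    freeMul (⟨1, h⟩ : X.piece (n - n)) = 𝟙 (free X n) := by
  apply freeHom_ext
  rw [freeMul, freeHom_gen]
  rfl

lemma freeMul_gen {n e : ℤ} (s : X.piece (e - n)) :
    ((freeMul s).hom.app ⟨-n⟩).hom (freeGen X n) =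
      (⟨s.1, mem_piece_congr (by ring) s.2⟩ : (⟨-e⟩ : Deg X) ⟶ ⟨-n⟩) := by
  rw [freeMul, freeHom_gen]

lemma freeMul_add {n e : ℤ} (s t : X.piece (e - n)) : freeMul (s + t) = freeMul s + freeMul t :=
  freeHom_ext (by
    change _ = ((freeMul s).hom.app ⟨-n⟩).hom (freeGen X n) +
      ((freeMul t).hom.app ⟨-n⟩).hom (freeGen X n)
    rw [freeMul_gen, freeMul_gen, freeMul_gen]
    rfl)

lemma freeMul_smul {n e : ℤ} (c : ℂ) (s : X.piece (e - n)) : freeMul (c • s) = c • freeMul s :=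
  freeHom_ext (by
    change _ = c • ((freeMul s).hom.app ⟨-n⟩).hom (freeGen X n)
    rw [freeMul_gen, freeMul_gen]
    rfl)

/-- Every morphism `A(n) ⟶ A(e)` is the multiplication by an element of `A_{e-n}`. -/
lemma exists_freeMul {n e : ℤ} (f : free X n ⟶ free X e) : ∃ s : X.piece (e - n), f = freeMul s := by
  refine ⟨⟨((freeEquiv n (free X e) f : (⟨-e⟩ : Deg X) ⟶ ⟨-n⟩)).1, mem_piece_congr (by
    change (-n) - (-e) = e - n
    ring) (freeEquiv n (free X e) f : (⟨-e⟩ : Deg X) ⟶ ⟨-n⟩).2⟩, ?_⟩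
  exact ((freeEquiv n (free X e)).symm_apply_apply f).symm

variable (X) in
/-- Multiplication by `s ∈ A_{e-n}` on line bundles: `𝒪(n) ⟶ 𝒪(e)`. -/
def OMul {n e : ℤ} (s : X.piece (e - n)) : O X n ⟶ O X e := (sheaf X).map (freeMul s)

lemma OMul_comp {n e g : ℤ} (s : X.piece (e - n)) (t : X.piece (g - e)) :
    OMul X s ≫ OMul X t = OMul X (pmul s t) := by
  rw [OMul, OMul, ← Functor.map_comp, freeMul_comp, OMul]

lemma OMul_add {n e : ℤ} (s t : X.piece (e - n)) : OMul X (s + t) = OMul X s + OMul X t := by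
  rw [OMul, freeMul_add, Functor.map_add, OMul, OMul]

lemma OMul_smul {n e : ℤ} (c : ℂ) (s : X.piece (e - n)) : OMul X (c • s) = c • OMul X s := by
  rw [OMul, freeMul_smul, Functor.map_smul, OMul]

/-- The section of `M~(n)` given by an element of `M_n`. -/
def secOf {M : Gr X} {n : ℤ} : M.obj.obj ⟨-n⟩ →ₗ[ℂ] (O X n ⟶ (sheaf X).obj M) where
  toFun x := (sheaf X).map (freeHom x)
  map_add' x y := by
    rw [← Functor.map_add]
    congr 1
    exact freeHom_ext (by
      change _ = ((freeHom x).hom.app ⟨-n⟩).hom (freeGen X n) +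
        ((freeHom y).hom.app ⟨-n⟩).hom (freeGen X n)
      rw [freeHom_gen, freeHom_gen, freeHom_gen])
  map_smul' c x := by
    rw [RingHom.id_apply, ← Functor.map_smul]
    congr 1
    exact freeHom_ext (by
      change _ = c • ((freeHom x).hom.app ⟨-n⟩).hom (freeGen X n)
      rw [freeHom_gen, freeHom_gen])

lemma OMul_comp_secOf {n e : ℤ} (s : X.piece (e - n)) {M : Gr X} (x : M.obj.obj ⟨-e⟩) :
    OMul X s ≫ secOf x = secOf (actNeg M s x) := by
  change (sheaf X).map _ ≫ (sheaf X).map _ = (sheaf X).map _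
  rw [← Functor.map_comp, freeMul_comp_freeHom]

instance : HasExt.{1} (Coh X) := hasExt_of_hasDerivedCategory _

end H24.Ku
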